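import Pool.Agent.BEW.StmtsD

/-!
# SEQ of squad BEW: a recursive sequence
-/

set_option autoImplicit false

namespace Pool.Agent.BEW.H95

open Set Filter Topology MeasureTheory

noncomputable section

theorem low (β u : ℝ) (hβ : 0 ≤ β) (hu : u < 1) : 1 + β * u ≤ (1 - u) ^ (-β) := by
  rw [Real.rpow_def_of_pos (by linarith)]
  have h1 : Real.log (1 - u) ≤ -u := by
    have := Real.log_le_sub_one_of_pos (show 0 < 1 - u by linarith)
    linarith
  have h2 := Real.add_one_le_exp (Real.log (1 - u) * -β)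
  nlinarith

theorem upp (β u : ℝ) (hβ : 0 ≤ β) (hu0 : 0 ≤ u) (hu : u ≤ 1 / 2) :
    (1 - u) ^ (-β) ≤ 1 + 2 * β * Real.exp β * u := by
  rw [Real.rpow_def_of_pos (by linarith)]
  have h0 : 0 < 1 - u := by linarith
  have h1 : -(2 * u) ≤ Real.log (1 - u) := by
    have h2 := Real.one_sub_inv_le_log_of_pos h0
    have h3 : (1 - u)⁻¹ ≤ 1 + 2 * u := by
      rw [inv_le_comm₀ h0 (by linarith)]
      rw [inv_le_iff_one_le_mul₀ (by linarith)]
      nlinarith
    linarith
  have h2 : Real.exp (Real.log (1 - u) * -β) ≤ Real.exp (2 * u * β) := by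
    apply Real.exp_le_exp.2
    nlinarith
  have h3 : Real.exp (2 * u * β) ≤ 1 + 2 * u * β * Real.exp (2 * u * β) := by
    have h4 := Real.add_one_le_exp (-(2 * u * β))
    have h5 : Real.exp (-(2 * u * β)) * Real.exp (2 * u * β) = 1 := by
      rw [← Real.exp_add, neg_add_cancel, Real.exp_zero]
    have h6 := mul_le_mul_of_nonneg_right h4 (Real.exp_pos (2 * u * β)).le
    rw [h5] at h6
    linarith
  have h4 : Real.exp (2 * u * β) ≤ Real.exp β := by
    apply Real.exp_le_exp.2
    nlinarith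
  have h5 : 2 * u * β * Real.exp (2 * u * β) ≤ 2 * u * β * Real.exp β :=
    mul_le_mul_of_nonneg_left h4 (by positivity)
  linarith

theorem sq_rpow (r al : ℝ) (hr : 0 < r) : (r ^ 2) ^ (-(al / 2)) = r ^ (-al) := by
  rw [← Real.rpow_two, ← Real.rpow_mul hr.le]
  congr 1
  ring

theorem seq : SeqStmt := by
  intro al y r0 hal hy hr0 h0
  let K : ℝ := 2 * (al / 2) * Real.exp (al / 2)
  let z0 : ℝ := r0 ^ (-al)
  have hz0 : 0 < z0 := Real.rpow_pos_of_pos hr0 _
  have hK : 0 < K := by positivity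
  let a : ℝ := min z0 (al / 2 * y)
  let A : ℝ := max z0 (3 * K * y)
  have ha : 0 < a := lt_min hz0 (by positivity)
  have hA : 0 < A := lt_of_lt_of_le hz0 (le_max_left _ _)
  refine ⟨A ^ (-(2 / al)), a ^ (-(2 / al)), Real.rpow_pos_of_pos hA _, Real.rpow_pos_of_pos ha _, ?_⟩
  intro r hr hpos hrec
  -- monotone
  have hbd : ∀ j, 3 * y * r j ^ al ≤ 1 / 2 := by
    intro j
    induction j with
    | zero => rw [hr]; exact h0
    | succ n ih =>
      have h1 := (hrec n).2
      have h2 : 0 < r n ^ al := Real.rpow_pos_of_pos (hpos n) _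
      have h3 : r (n + 1) ^ 2 ≤ r n ^ 2 := by
        have : 0 ≤ r n ^ 2 * (y * r n ^ al) := by positivity
        linarith
      have h4 : r (n + 1) ≤ r n := (pow_le_pow_iff_left₀ (hpos _).le (hpos _).le two_ne_zero).1 h3
      have h5 : r (n + 1) ^ al ≤ r n ^ al := Real.rpow_le_rpow (hpos _).le h4 hal.le
      have : 3 * y * r (n + 1) ^ al ≤ 3 * y * r n ^ al :=
        mul_le_mul_of_nonneg_left h5 (by positivity)
      linarith
  have hstep : ∀ j, r j ^ (-al) + al / 2 * y ≤ r (j + 1) ^ (-al) ∧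
      r (j + 1) ^ (-al) ≤ r j ^ (-al) + 3 * K * y := by
    intro j
    have hp := hpos j
    have hp1 := hpos (j + 1)
    have hu : 0 < r j ^ al := Real.rpow_pos_of_pos hp _
    have hz : 0 < r j ^ (-al) := Real.rpow_pos_of_pos hp _
    have hzu : r j ^ (-al) * r j ^ al = 1 := by
      rw [← Real.rpow_add hp, neg_add_cancel, Real.rpow_zero]
    have hb := hbd j
    have hu1 : y * r j ^ al < 1 := by nlinarith
    obtain ⟨h1, h2⟩ := hrec j
    have hneg : -(al / 2) ≤ 0 := by linarith
    constructor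
    · have h3 : (r j ^ 2 * (1 - y * r j ^ al)) ^ (-(al / 2)) ≤ (r (j + 1) ^ 2) ^ (-(al / 2)) :=
        Real.rpow_le_rpow_of_nonpos (by positivity) h2 hneg
      rw [Real.mul_rpow (by positivity) (by linarith), sq_rpow _ _ hp, sq_rpow _ _ hp1] at h3
      have h4 := mul_le_mul_of_nonneg_left (low (al / 2) (y * r j ^ al) (by linarith) hu1) hz.le
      have h5 : r j ^ (-al) * (1 + al / 2 * (y * r j ^ al)) = r j ^ (-al) + al / 2 * y := by
        have : r j ^ (-al) * (1 + al / 2 * (y * r j ^ al)) =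
          r j ^ (-al) + al / 2 * y * (r j ^ (-al) * r j ^ al) := by ring
        rw [this, hzu, mul_one]
      rw [h5] at h4
      exact h4.trans h3
    · have hq : 0 < 1 - 3 * y * r j ^ al := by linarith
      have h3 : (r (j + 1) ^ 2) ^ (-(al / 2)) ≤ (r j ^ 2 * (1 - 3 * y * r j ^ al)) ^ (-(al / 2)) :=
        Real.rpow_le_rpow_of_nonpos (by positivity) h1 hneg
      rw [Real.mul_rpow (by positivity) hq.le, sq_rpow _ _ hp, sq_rpow _ _ hp1] at h3
      have h4 := mul_le_mul_of_nonneg_left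
        (upp (al / 2) (3 * y * r j ^ al) (by linarith) (by positivity) hb) hz.le
      have h5 : r j ^ (-al) * (1 + 2 * (al / 2) * Real.exp (al / 2) * (3 * y * r j ^ al)) =
          r j ^ (-al) + 3 * K * y := by
        have : r j ^ (-al) * (1 + 2 * (al / 2) * Real.exp (al / 2) * (3 * y * r j ^ al)) =
          r j ^ (-al) + 3 * (2 * (al / 2) * Real.exp (al / 2)) * y * (r j ^ (-al) * r j ^ al) := by
          ring
        rw [this, hzu, mul_one]
      rw [h5] at h4
      exact h3.trans h4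
  have hz : ∀ j : ℕ, a * (1 + (j : ℝ)) ≤ r j ^ (-al) ∧ r j ^ (-al) ≤ A * (1 + (j : ℝ)) := by
    intro j
    induction j with
    | zero =>
      rw [hr, Nat.cast_zero, add_zero, mul_one, mul_one]
      exact ⟨min_le_left _ _, le_max_left _ _⟩
    | succ n ih =>
      have h1 := hstep n
      have h2 : a ≤ al / 2 * y := min_le_right _ _
      have h3 : 3 * K * y ≤ A := le_max_right _ _
      push_cast
      constructor
      · have := ih.1
        linarith [h1.1]
      · have := ih.2
        linarith [h1.2]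
  intro j
  have hp := hpos j
  have hj : (0 : ℝ) < 1 + (j : ℝ) := by positivity
  have hr2 : r j ^ 2 = (r j ^ (-al)) ^ (-(2 / al)) := by
    rw [← Real.rpow_mul hp.le, ← Real.rpow_two]
    congr 1
    field_simp
  have hexp : -(2 / al) ≤ 0 := by
    have : 0 < 2 / al := by positivity
    linarith
  obtain ⟨h1, h2⟩ := hz j
  rw [hr2, ← Real.mul_rpow hA.le hj.le, ← Real.mul_rpow ha.le hj.le]
  exact ⟨Real.rpow_le_rpow_of_nonpos (Real.rpow_pos_of_pos hp _) h2 hexp,
    Real.rpow_le_rpow_of_nonpos (by positivity) h1 hexp⟩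

end

end Pool.Agent.BEW.H95
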